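import Pool.Agent.Y763.AH.E

/-! The kernel `sinc² / (1 - x²)`: positive inside `|x| < 1`, nonpositive outside. -/

set_option autoImplicit false

open MeasureTheory Set Filter Topology

namespace Q172.HS

open Pool.Agent.Y749.Rig

/-- the weight `1 - t + sin (2 π t) / (2 π)` -/
noncomputable def psi (t : ℝ) : ℝ := 1 - t + Real.sin (2 * Real.pi * t) / (2 * Real.pi)

lemma psi_cont : Continuous psi := by
  unfold psi
  fun_prop

lemma psi_zero : psi 0 = 1 := by unfold psi; simp

lemma psi_one : psi 1 = 0 := by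
  unfold psi
  rw [mul_one, Real.sin_two_pi]
  simp

lemma psi_nonneg {t : ℝ} (ht : t ≤ 1) : 0 ≤ psi t := by
  unfold psi
  have hpi := Real.pi_pos
  have e : Real.sin (2 * Real.pi * t) = -Real.sin (2 * Real.pi * (1 - t)) := by
    rw [show 2 * Real.pi * (1 - t) = 2 * Real.pi - 2 * Real.pi * t by ring, Real.sin_two_pi_sub]
    ring
  have h := Real.sin_le (show 0 ≤ 2 * Real.pi * (1 - t) by
    have : 0 ≤ 1 - t := by linarith
    positivity)
  rw [e, neg_div]
  have : Real.sin (2 * Real.pi * (1 - t)) / (2 * Real.pi) ≤ 1 - t := by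
    rw [div_le_iff₀ (by positivity)]
    linarith
  linarith

lemma psi_le {t : ℝ} (h0 : 0 ≤ t) : psi t ≤ 1 := by
  unfold psi
  have hpi := Real.pi_pos
  have h := Real.sin_le (show 0 ≤ 2 * Real.pi * t by positivity)
  have : Real.sin (2 * Real.pi * t) / (2 * Real.pi) ≤ t := by
    rw [div_le_iff₀ (by positivity)]
    linarith
  linarith

lemma psi_deriv (t : ℝ) : HasDerivAt psi (-1 + Real.cos (2 * Real.pi * t)) t := by
  unfold psi
  have hpi := Real.pi_pos
  have h1 : HasDerivAt (fun t : ℝ => 2 * Real.pi * t) (2 * Real.pi) t := by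
    simpa using (hasDerivAt_id t).const_mul (2 * Real.pi)
  have h2 := ((h1.sin).div_const (2 * Real.pi))
  have h3 := ((hasDerivAt_const t (1:ℝ)).sub (hasDerivAt_id t)).add h2
  refine h3.congr_deriv ?_
  field_simp
  ring

lemma psi_mass : ∫ t in (0:ℝ)..1, psi t = 1 / 2 := by
  have hpi := Real.pi_pos
  have h : ∀ t ∈ Set.uIcc (0:ℝ) 1, HasDerivAt (fun t : ℝ => t - t ^ 2 / 2 -
      Real.cos (2 * Real.pi * t) / (2 * Real.pi) ^ 2) (psi t) t := by
    intro t _
    have h1 : HasDerivAt (fun t : ℝ => 2 * Real.pi * t) (2 * Real.pi) t := by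
      simpa using (hasDerivAt_id t).const_mul (2 * Real.pi)
    have h2 := (h1.cos).div_const ((2 * Real.pi) ^ 2)
    have h3 := (((hasDerivAt_id t).sub ((hasDerivAt_pow 2 t).div_const 2)).sub h2)
    refine h3.congr_deriv ?_
    unfold psi
    push_cast
    field_simp
    ring
  rw [intervalIntegral.integral_eq_sub_of_hasDerivAt h (psi_cont.intervalIntegrable _ _)]
  simp
  norm_num

/-- the differential equation for the cosine transforms -/
lemma key (y : ℝ) : (1 - y ^ 2) * (∫ t in (0:ℝ)..1, psi t * Real.cos (2 * Real.pi * t * y)) =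
    ∫ t in (0:ℝ)..1, (1 - t) * Real.cos (2 * Real.pi * t * y) := by
  have hpi := Real.pi_pos
  have c1 : Continuous fun t : ℝ => psi t * Real.cos (2 * Real.pi * t * y) := by
    have := psi_cont
    fun_prop
  have c2 : Continuous fun t : ℝ => (1 - t) * Real.cos (2 * Real.pi * t * y) := by fun_prop
  have h : ∀ t ∈ Set.uIcc (0:ℝ) 1, HasDerivAt (fun t : ℝ =>
      (-1 + Real.cos (2 * Real.pi * t)) * Real.cos (2 * Real.pi * t * y) +
        2 * Real.pi * y * (psi t * Real.sin (2 * Real.pi * t * y)))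
      (4 * Real.pi ^ 2 * ((1 - t) * Real.cos (2 * Real.pi * t * y)) -
        4 * Real.pi ^ 2 * (1 - y ^ 2) * (psi t * Real.cos (2 * Real.pi * t * y))) t := by
    intro t _
    have h1 : HasDerivAt (fun t : ℝ => 2 * Real.pi * t) (2 * Real.pi) t := by
      simpa using (hasDerivAt_id t).const_mul (2 * Real.pi)
    have h1y : HasDerivAt (fun t : ℝ => 2 * Real.pi * t * y) (2 * Real.pi * y) t := h1.mul_const y
    have h2 := ((hasDerivAt_const t (-1:ℝ)).add h1.cos).mul h1y.cos
    have h3 := ((psi_deriv t).mul h1y.sin).const_mul (2 * Real.pi * y)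
    refine (h2.add h3).congr_deriv ?_
    have e : Real.sin (2 * Real.pi * t) = 2 * Real.pi * (psi t - (1 - t)) := by
      unfold psi
      field_simp
      ring
    rw [e]
    simp only [Pi.add_apply]
    ring
  have h4 := intervalIntegral.integral_eq_sub_of_hasDerivAt h
    (by apply Continuous.intervalIntegrable; fun_prop)
  rw [intervalIntegral.integral_sub ((c2.const_mul _).intervalIntegrable _ _)
    ((c1.const_mul _).intervalIntegrable _ _), intervalIntegral.integral_const_mul,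
    intervalIntegral.integral_const_mul] at h4
  have e1 : (-1 + Real.cos (2 * Real.pi * 1)) = 0 := by
    rw [mul_one, Real.cos_two_pi]; ring
  have e0 : (-1 + Real.cos (2 * Real.pi * 0)) = 0 := by simp
  rw [e1, e0, psi_one] at h4
  simp only [zero_mul, mul_zero, Real.sin_zero, add_zero, sub_zero] at h4
  have h5 : 4 * Real.pi ^ 2 * ((∫ t in (0:ℝ)..1, (1 - t) * Real.cos (2 * Real.pi * t * y)) -
      (1 - y ^ 2) * ∫ t in (0:ℝ)..1, psi t * Real.cos (2 * Real.pi * t * y)) = 0 := by linarith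
  rcases mul_eq_zero.1 h5 with h6 | h6
  · have : 0 < 4 * Real.pi ^ 2 := by positivity
    linarith
  · linarith

/-- the weight on the line, of mass one -/
noncomputable def ph (R α : ℝ) : ℝ := psi (min (|α| / R) 1) / R

lemma ph_cont (R : ℝ) : Continuous (ph R) := by
  unfold ph
  exact (psi_cont.comp (by fun_prop)).div_const _

lemma ph_even (R α : ℝ) : ph R (-α) = ph R α := by unfold ph; rw [abs_neg]

lemma ph_supp {R : ℝ} (hR : 0 < R) (x : ℝ) (h : R ≤ |x|) : ph R x = 0 := by
  unfold ph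
  rw [min_eq_right ((one_le_div hR).2 h), psi_one, zero_div]

lemma ph_in {R : ℝ} (hR : 0 < R) {x : ℝ} (h : |x| ≤ R) : ph R x = psi (|x| / R) / R := by
  unfold ph
  rw [min_eq_left ((div_le_one hR).2 h)]

lemma ph_nonneg {R : ℝ} (hR : 0 < R) (α : ℝ) : 0 ≤ ph R α :=
  div_nonneg (psi_nonneg (min_le_right _ _)) hR.le

lemma ph_int {R : ℝ} (hR : 0 < R) : Integrable (ph R) := by
  refine (ph_cont R).integrable_of_hasCompactSupport ?_
  refine HasCompactSupport.of_support_subset_isCompact (isCompact_Icc (a := -R) (b := R)) ?_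
  intro x hx
  by_contra hcon
  refine hx (ph_supp hR x ?_)
  by_contra h
  push Not at h
  exact hcon ⟨(abs_lt.1 h).1.le, (abs_lt.1 h).2.le⟩

/-- an even integral over `[-R, R]` scaled to `[0, 1]` -/
lemma even_scale {R : ℝ} (hR : 0 < R) {f g : ℝ → ℝ} (hf : Continuous f) (he : ∀ x, f (-x) = f x)
    (hs : ∀ x, R ≤ |x| → f x = 0) (hg : ∀ t ∈ Icc (0:ℝ) 1, R * f (R * t) = g t) :
    ∫ x, f x = 2 * ∫ t in (0:ℝ)..1, g t := by
  rw [int_supp hR hs, ← intervalIntegral.integral_add_adjacent_intervals (b := 0)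
    (hf.intervalIntegrable _ _) (hf.intervalIntegrable _ _)]
  have h2 := intervalIntegral.integral_comp_neg (a := (0 : ℝ)) (b := R) f
  rw [neg_zero] at h2
  have h3 : ∫ x in (0:ℝ)..R, f (-x) = ∫ x in (0:ℝ)..R, f x :=
    intervalIntegral.integral_congr fun x _ => he x
  rw [← h2, h3]
  have h4 := intervalIntegral.integral_comp_mul_left (a := (0:ℝ)) (b := 1) f hR.ne'
  rw [mul_zero, mul_one, smul_eq_mul] at h4
  have h5 : ∫ t in (0:ℝ)..1, g t = R * ∫ t in (0:ℝ)..1, f (R * t) := by
    rw [← intervalIntegral.integral_const_mul]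
    refine intervalIntegral.integral_congr fun t ht => ?_
    rw [uIcc_of_le zero_le_one] at ht
    exact (hg t ht).symm
  rw [h5, h4]
  field_simp
  ring

/-- the kernel -/
noncomputable def Kf (R x : ℝ) : ℝ := fl (ph R) x

lemma Kf_cont {R : ℝ} (hR : 0 < R) : Continuous (Kf R) := fl_cont (ph_int hR)

lemma Kf_even (R x : ℝ) : Kf R (-x) = Kf R x := fl_even x

lemma Kf_eq {R : ℝ} (hR : 0 < R) (x : ℝ) :
    Kf R x = 2 * ∫ t in (0:ℝ)..1, psi t * Real.cos (2 * Real.pi * t * (R * x)) := by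
  unfold Kf fl
  refine even_scale hR ?_ (fun y => ?_) (fun y hy => ?_) (fun t ht => ?_)
  · have := ph_cont R
    fun_prop
  · rw [ph_even, show 2 * Real.pi * -y * x = -(2 * Real.pi * y * x) by ring, Real.cos_neg]
  · rw [ph_supp hR y hy, zero_mul]
  · rw [ph_in hR (by rw [abs_of_nonneg (mul_nonneg hR.le ht.1)]; nlinarith [ht.2]),
      abs_of_nonneg (mul_nonneg hR.le ht.1), mul_div_cancel_left₀ _ hR.ne',
      show 2 * Real.pi * (R * t) * x = 2 * Real.pi * t * (R * x) by ring]
    field_simp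

lemma tr_eq' {R : ℝ} (hR : 0 < R) (x : ℝ) :
    fl (tr R) x = 2 * ∫ t in (0:ℝ)..1, (1 - t) * Real.cos (2 * Real.pi * t * (R * x)) := by
  unfold fl
  refine even_scale hR ?_ (fun y => ?_) (fun y hy => ?_) (fun t ht => ?_)
  · have := tr_cont R
    fun_prop
  · rw [tr_even, show 2 * Real.pi * -y * x = -(2 * Real.pi * y * x) by ring, Real.cos_neg]
  · rw [tr_supp hR y hy, zero_mul]
  · unfold tr
    rw [abs_of_nonneg (mul_nonneg hR.le ht.1), mul_div_cancel_left₀ _ hR.ne',
      max_eq_right (by linarith [ht.2]),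
      show 2 * Real.pi * (R * t) * x = 2 * Real.pi * t * (R * x) by ring]
    field_simp

/-- **the identity** `K (1 - (R x)²) = sinc² (R x)` -/
theorem Kf_mul {R : ℝ} (hR : 0 < R) (x : ℝ) : Kf R x * (1 - (R * x) ^ 2) = fl (tr R) x := by
  rw [Kf_eq hR, tr_eq' hR, ← key]
  ring

lemma Kf_zero {R : ℝ} (hR : 0 < R) : Kf R 0 = 1 := by
  have h := Kf_mul hR 0
  rw [fl_tr_zero hR, mul_zero] at h
  linarith

lemma Kf_le_one {R : ℝ} (hR : 0 < R) (x : ℝ) : Kf R x ≤ 1 := by
  rw [Kf_eq hR]
  have c1 : Continuous fun t : ℝ => psi t * Real.cos (2 * Real.pi * t * (R * x)) := by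
    have := psi_cont
    fun_prop
  have h : ∫ t in (0:ℝ)..1, psi t * Real.cos (2 * Real.pi * t * (R * x)) ≤
      ∫ t in (0:ℝ)..1, psi t := by
    refine intervalIntegral.integral_mono_on zero_le_one (c1.intervalIntegrable _ _)
      (psi_cont.intervalIntegrable _ _) fun t ht => ?_
    exact mul_le_of_le_one_right (psi_nonneg ht.2) (Real.cos_le_one _)
  rw [psi_mass] at h
  linarith

lemma Kf_out {R : ℝ} (hR : 0 < R) {x : ℝ} (h : 1 / R < |x|) : Kf R x ≤ 0 := by
  have h1 := Kf_mul hR x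
  have h2 := fl_tr_nonneg hR x
  have h3 : 1 < (R * x) ^ 2 := by
    rw [← sq_abs, abs_mul, abs_of_pos hR]
    rw [div_lt_iff₀ hR] at h
    have : 1 < R * |x| := by linarith
    nlinarith
  by_contra hc
  push Not at hc
  nlinarith

lemma Kf_edge {R : ℝ} (hR : 0 < R) : Kf R (1 / R) ≤ 0 := by
  have hc := (Kf_cont hR).continuousAt (x := 1 / R)
  have h1 : Tendsto (Kf R) (𝓝[>] (1 / R)) (𝓝 (Kf R (1 / R))) := hc.tendsto.mono_left nhdsWithin_le_nhds
  refine le_of_tendsto h1 ?_
  filter_upwards [self_mem_nhdsWithin] with x hx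
  have hx' : 1 / R < x := hx
  exact Kf_out hR (hx'.trans_le (le_abs_self x))

lemma Kf_out' {R : ℝ} (hR : 0 < R) {x : ℝ} (h : 1 / R ≤ |x|) : Kf R x ≤ 0 := by
  rcases h.eq_or_lt with h1 | h1
  · rcases abs_choice x with h2 | h2
    · rw [h2] at h1
      rw [← h1]
      exact Kf_edge hR
    · have : Kf R x = Kf R (1 / R) := by
        rw [h1, h2, Kf_even]
      rw [this]
      exact Kf_edge hR
  · exact Kf_out hR h1

end Q172.HS
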