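import Pool.Agent.Q172.HS.S1

/-! The weighted integral of the form factor and the sum over the pairs. -/

set_option autoImplicit false

open MeasureTheory Set Filter Topology

namespace Q172.HS

open Pool.Agent.Y749.Rig
open Pool.Agent.Y763.AH
open SG (ord NZ)

lemma mass_lim (RH : RiemannHypothesis) {u : ℝ} (hu : 0 < u) (hu1 : u < 1) :
    Tendsto (fun T => ∫ α in (-u)..u, Fr T α) atTop (𝓝 (1 + u ^ 2)) := by
  have h1 := A_lim RH (R := 1) le_rfl hu hu1
  have h2 := A_lim RH (R := 2) (by norm_num) hu hu1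
  have h3 := h2.sub h1
  rw [show (2 + 2 * u ^ 2 - 2 * u ^ 3 / 3) - (1 + 1 * u ^ 2 - 2 * u ^ 3 / 3) = 1 + u ^ 2 by ring] at h3
  refine h3.congr fun T => ?_
  have hFc := Fr_cont T
  rw [← intervalIntegral.integral_sub (by apply Continuous.intervalIntegrable; fun_prop)
    (by apply Continuous.intervalIntegrable; fun_prop)]
  refine intervalIntegral.integral_congr fun α _ => ?_
  show (2 - |α|) * Fr T α - (1 - |α|) * Fr T α = Fr T α
  ring

lemma sym_int {f : ℝ → ℝ} (hf : Continuous f) (he : ∀ x, f (-x) = f x) (u : ℝ) :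
    ∫ α in (-u)..u, f α = 2 * ∫ α in (0:ℝ)..u, f α := by
  rw [← intervalIntegral.integral_add_adjacent_intervals (b := 0)
    (hf.intervalIntegrable _ _) (hf.intervalIntegrable _ _)]
  have h2 := intervalIntegral.integral_comp_neg (a := (0 : ℝ)) (b := u) f
  rw [neg_zero] at h2
  have h3 : ∫ x in (0:ℝ)..u, f (-x) = ∫ x in (0:ℝ)..u, f x :=
    intervalIntegral.integral_congr fun x _ => he x
  rw [← h2, h3]
  ring

theorem near_lim (RH : RiemannHypothesis) {κ : ℝ} (hκ : 0 < κ) (hκ1 : κ < 1) {g g' : ℝ → ℝ}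
    (hg : ∀ x, HasDerivAt g (g' x) x) (hg' : Continuous g') :
    Tendsto (fun T => ∫ α in (-κ)..κ, g |α| * Fr T α) atTop
      (𝓝 (g 0 + 2 * ∫ u in (0:ℝ)..κ, g u * u)) := by
  have hgc : Continuous g := continuous_iff_continuousAt.2 fun x => (hg x).continuousAt
  -- integration by parts
  have parts : ∀ T : ℝ, ∫ α in (-κ)..κ, g |α| * Fr T α =
      g κ * (∫ α in (-κ)..κ, Fr T α) - ∫ u in (0:ℝ)..κ, g' u * ∫ α in (-u)..u, Fr T α := by
    intro T
    have hFc := Fr_cont T
    have e1 : ∫ α in (-κ)..κ, g |α| * Fr T α = 2 * ∫ α in (0:ℝ)..κ, g |α| * Fr T α :=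
      sym_int (by fun_prop) (fun x => by rw [abs_neg, Fr_even]) κ
    have e2 : ∫ α in (0:ℝ)..κ, g |α| * Fr T α = ∫ α in (0:ℝ)..κ, g α * Fr T α := by
      refine intervalIntegral.integral_congr fun α hα => ?_
      rw [uIcc_of_le hκ.le] at hα
      show g |α| * Fr T α = g α * Fr T α
      rw [abs_of_nonneg hα.1]
    have hM : ∀ u : ℝ, ∫ α in (-u)..u, Fr T α = 2 * ∫ α in (0:ℝ)..u, Fr T α := fun u =>
      sym_int hFc (Fr_even T) u
    have hv : ∀ x ∈ uIcc (0:ℝ) κ, HasDerivAt (fun u => 2 * ∫ α in (0:ℝ)..u, Fr T α) (2 * Fr T x) x :=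
      fun x _ => ((hFc.integral_hasStrictDerivAt 0 x).hasDerivAt).const_mul 2
    have h3 := intervalIntegral.integral_mul_deriv_eq_deriv_mul (fun x _ => hg x) hv
      (hg'.intervalIntegrable _ _) ((hFc.const_mul 2).intervalIntegrable _ _)
    rw [intervalIntegral.integral_same, mul_zero, mul_zero, sub_zero] at h3
    rw [e1, e2, hM]
    simp_rw [hM]
    rw [← h3, ← intervalIntegral.integral_const_mul]
    refine intervalIntegral.integral_congr fun α _ => ?_
    show 2 * (g α * Fr T α) = g α * (2 * Fr T α)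
    ring
  have m1 := mass_lim RH hκ hκ1
  -- dominated convergence
  obtain ⟨C, hC⟩ : ∃ C : ℝ, ∀ u ∈ Icc (0:ℝ) κ, |g' u| ≤ C := by
    obtain ⟨C, hC⟩ := (isCompact_Icc (a := (0:ℝ)) (b := κ)).exists_bound_of_continuousOn hg'.continuousOn
    exact ⟨C, fun u hu => hC u hu⟩
  have hC0 : 0 ≤ C := (abs_nonneg _).trans (hC 0 ⟨le_rfl, hκ.le⟩)
  have m2 : Tendsto (fun T => ∫ u in (0:ℝ)..κ, g' u * ∫ α in (-u)..u, Fr T α) atTop
      (𝓝 (∫ u in (0:ℝ)..κ, g' u * (1 + u ^ 2))) := by
    refine intervalIntegral.tendsto_integral_filter_of_dominated_convergence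
      (fun _ => C * (1 + κ ^ 2 + 1)) ?_ ?_ ?_ ?_
    · refine Eventually.of_forall fun T => ?_
      have hFc := Fr_cont T
      have h4 : Continuous fun u : ℝ => ∫ α in (-u)..u, Fr T α := by
        have e : (fun u : ℝ => ∫ α in (-u)..u, Fr T α) = fun u => 2 * ∫ α in (0:ℝ)..u, Fr T α :=
          funext fun u => sym_int hFc (Fr_even T) u
        rw [e]
        exact (intervalIntegral.continuous_primitive (fun a b => hFc.intervalIntegrable a b) 0).const_mul 2
      exact (hg'.mul h4).aestronglyMeasurable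
    · filter_upwards [m1.eventually (gt_mem_nhds (show 1 + κ ^ 2 < 1 + κ ^ 2 + 1 by linarith)),
        eventually_ge_atTop 10] with T hT hT10
      refine ae_of_all _ fun u hu => ?_
      rw [uIoc_of_le hκ.le] at hu
      have hF0 := Fr_nonneg hT10
      have hFc := Fr_cont T
      have h5 : ∫ α in (-u)..u, Fr T α ≤ ∫ α in (-κ)..κ, Fr T α :=
        intervalIntegral.integral_mono_interval (by linarith [hu.2]) (by linarith [hu.1]) hu.2
          (ae_of_all _ fun α => hF0 α) (hFc.intervalIntegrable _ _)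
      have h6 : 0 ≤ ∫ α in (-u)..u, Fr T α :=
        intervalIntegral.integral_nonneg (by linarith [hu.1]) fun α _ => hF0 α
      rw [Real.norm_eq_abs, abs_mul, abs_of_nonneg h6]
      exact mul_le_mul (hC u ⟨hu.1.le, hu.2⟩) (by linarith) h6 hC0
    · exact intervalIntegrable_const
    · refine ae_of_all _ fun u hu => ?_
      rw [uIoc_of_le hκ.le] at hu
      exact (mass_lim RH hu.1 (hu.2.trans_lt hκ1)).const_mul _
  have m3 := (m1.const_mul (g κ)).sub m2
  have e3 : g κ * (1 + κ ^ 2) - ∫ u in (0:ℝ)..κ, g' u * (1 + u ^ 2) =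
      g 0 + 2 * ∫ u in (0:ℝ)..κ, g u * u := by
    have hd : ∀ x ∈ uIcc (0:ℝ) κ, HasDerivAt (fun u : ℝ => g u * (1 + u ^ 2))
        (g' x * (1 + x ^ 2) + 2 * (g x * x)) x := by
      intro x _
      have h7 := (hg x).mul ((hasDerivAt_const x (1:ℝ)).add (hasDerivAt_pow 2 x))
      refine h7.congr_deriv ?_
      simp only [Pi.add_apply]
      push_cast
      ring
    have h8 := intervalIntegral.integral_eq_sub_of_hasDerivAt hd
      (by apply Continuous.intervalIntegrable; fun_prop)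
    rw [intervalIntegral.integral_add (by apply Continuous.intervalIntegrable; fun_prop)
      (by apply Continuous.intervalIntegrable; fun_prop), intervalIntegral.integral_const_mul] at h8
    have h9 : g 0 * (1 + (0:ℝ) ^ 2) = g 0 := by norm_num
    rw [h9] at h8
    linarith
  rw [e3] at m3
  exact m3.congr fun T => (parts T).symm

/-! ### The sum over the pairs -/

/-- the weighted kernel at a pair of ordinates -/
noncomputable def kw (k : ℝ → ℝ) (T x x' : ℝ) : ℝ :=
  k ((x - x') * Real.log T / (2 * Real.pi)) * ww (x - x')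

/-- the sum of the kernel over the pairs `n < n'` -/
noncomputable def PK (k : ℝ → ℝ) (T : ℝ) : ℝ := PS (fun n n' => kw k T (ord n) (ord n')) (NZ T)

lemma kw_symm {k : ℝ → ℝ} (hk : ∀ x, k (-x) = k x) (T x x' : ℝ) : kw k T x x' = kw k T x' x := by
  unfold kw
  have e1 : (x' - x) * Real.log T / (2 * Real.pi) = -((x - x') * Real.log T / (2 * Real.pi)) := by
    ring
  have e2 : ww (x' - x) = ww (x - x') := by
    unfold ww
    congr 2
    ring
  rw [e1, hk, e2]

lemma gw_kw (R T x x' : ℝ) : gw R T x x' = kw (fl (tr R)) T x x' := rfl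

lemma PT_PK (R T : ℝ) : PT R T = PK (fl (tr R)) T := rfl

theorem S_eqK (hRH : RiemannHypothesis) {R T : ℝ} (hR : 0 < R) (hT : 10 ≤ T) :
    ∫ α, ph R α * Fr T α = ((NZ T : ℝ) + 2 * PK (Kf R) T) / nT T := by
  have hL := one_lt_log (show 3 ≤ T by linarith)
  have hpi := Real.pi_pos
  rw [Fr_pair (ph_int hR), Mp_integral hT (fun x => fl (ph R) x * ww (2 * Real.pi * x / Real.log T))]
  congr 1
  unfold RR
  have h1 : ∀ s s' : ℂ, mm s * mm s' * (fl (ph R) ((s.im - s'.im) * Real.log T / (2 * Real.pi)) *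
      ww (2 * Real.pi * ((s.im - s'.im) * Real.log T / (2 * Real.pi)) / Real.log T)) =
      mm s * mm s' * kw (Kf R) T s.im s'.im := by
    intro s s'
    unfold kw Kf
    congr 3
    field_simp
  simp_rw [h1]
  rw [sum_idx2 hRH T (fun x x' => kw (Kf R) T x x'),
    full_sum (fun n n' => kw (Kf R) T (ord n) (ord n')) (fun n n' => kw_symm (Kf_even R) _ _ _)]
  congr 1
  have hd : ∀ n ∈ Finset.Ioc 0 (NZ T), kw (Kf R) T (ord n) (ord n) = 1 := by
    intro n _
    unfold kw
    rw [sub_self, zero_mul, zero_div, Kf_zero hR, ww_zero, mul_one]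
  rw [Finset.sum_congr rfl hd]
  simp

/-- the weighted integral -/
noncomputable def JK (R κ T : ℝ) : ℝ := ∫ α in κ..R, psi (α / R) * Fr T α

/-- its extremal value -/
noncomputable def bK (R κ : ℝ) : ℝ := (R - 1) / 2 - ∫ u in (0:ℝ)..κ, psi (u / R) * u

lemma JK_split {R κ : ℝ} (hR : 1 ≤ R) (hκ : 0 < κ) (hκ1 : κ < 1) (T : ℝ) :
    JK R κ T = (R * (∫ α, ph R α * Fr T α) - ∫ α in (-κ)..κ, psi (|α| / R) * Fr T α) / 2 := by
  have hR0 : 0 < R := by linarith
  have hFc := Fr_cont T
  have hpc := psi_cont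
  have e0 : R * (∫ α, ph R α * Fr T α) = ∫ α in (-R)..R, psi (|α| / R) * Fr T α := by
    rw [int_supp hR0 (fun x hx => by rw [ph_supp hR0 x hx, zero_mul]),
      ← intervalIntegral.integral_const_mul]
    refine intervalIntegral.integral_congr fun α hα => ?_
    rw [uIcc_of_le (by linarith)] at hα
    show R * (ph R α * Fr T α) = psi (|α| / R) * Fr T α
    rw [ph_in hR0 (abs_le.2 hα)]
    field_simp
  have cA : Continuous fun α : ℝ => psi (|α| / R) * Fr T α := by fun_prop
  have e1 : ∫ α in (-R)..R, psi (|α| / R) * Fr T α = 2 * ∫ α in (0:ℝ)..R, psi (|α| / R) * Fr T α :=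
    sym_int cA (fun x => by rw [abs_neg, Fr_even]) R
  have e2 : ∫ α in (-κ)..κ, psi (|α| / R) * Fr T α = 2 * ∫ α in (0:ℝ)..κ, psi (|α| / R) * Fr T α :=
    sym_int cA (fun x => by rw [abs_neg, Fr_even]) κ
  have e3 : JK R κ T = ∫ α in κ..R, psi (|α| / R) * Fr T α := by
    unfold JK
    refine intervalIntegral.integral_congr fun α hα => ?_
    rw [uIcc_of_le (by linarith)] at hα
    show psi (α / R) * Fr T α = psi (|α| / R) * Fr T α
    rw [abs_of_pos (hκ.trans_le hα.1)]
  rw [e0, e1, e2, e3, ← intervalIntegral.integral_add_adjacent_intervals (a := 0) (b := κ) (c := R)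
    (cA.intervalIntegrable _ _) (cA.intervalIntegrable _ _)]
  ring

theorem JK_lim (RH : RiemannHypothesis) {R κ : ℝ} (hR : 1 ≤ R) (hκ : 0 < κ) (hκ1 : κ < 1) :
    Tendsto (fun T => JK R κ T - R * (PK (Kf R) T / nT T)) atTop (𝓝 (bK R κ)) := by
  have hR0 : 0 < R := by linarith
  have hd : ∀ x : ℝ, HasDerivAt (fun x => psi (x / R))
      ((-1 + Real.cos (2 * Real.pi * (x / R))) * (1 / R)) x := fun x =>
    HasDerivAt.comp (h₂ := psi) x (psi_deriv (x / R)) ((hasDerivAt_id x).div_const R)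
  have hn := near_lim RH hκ hκ1 hd (by fun_prop)
  simp only [zero_div, psi_zero] at hn
  have t1 := ((NZ_lim.const_mul R).sub hn).div_const 2
  have e1 : (R * 1 - (1 + 2 * ∫ u in (0:ℝ)..κ, psi (u / R) * u)) / 2 = bK R κ := by
    unfold bK
    ring
  rw [e1] at t1
  refine t1.congr' ?_
  filter_upwards [eventually_ge_atTop 10] with T hT
  rw [JK_split hR hκ hκ1, S_eqK RH hR0 hT]
  ring

end Q172.HS
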