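import Pool.Agent.Q172.HS.S2

/-! Pairs at a small distance come from small spacings. -/

set_option autoImplicit false

open MeasureTheory Set Filter Topology

namespace Q172.HS

open Pool.Agent.Y749.Rig
open Pool.Agent.Y763.AH
open SG (ord NZ)
open H177.Lat (del)

open Classical in
/-- the small spacings -/
noncomputable def SM (c T : ℝ) : Finset ℕ := (Finset.Ioc 0 (NZ T)).filter (fun n => del n < c)

open Classical in
/-- the indicator of the near pairs -/
noncomputable def nr (c : ℝ) (T x x' : ℝ) : ℝ :=
  if |(x - x') * Real.log T / (2 * Real.pi)| < c then 1 else 0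

lemma nr_nonneg (c T x x' : ℝ) : 0 ≤ nr c T x x' := by unfold nr; split_ifs <;> norm_num

/-- the number of the near pairs is bounded by the number of the small spacings -/
theorem near_pairs (hRH : RiemannHypothesis) {c c' η : ℝ} (hc : 0 < c) (hcc : c < c') (hη : 0 < η) :
    ∃ K : ℝ, 0 < K ∧ ∀ᶠ T in atTop,
      PS (fun n n' => nr c T (ord n) (ord n')) (NZ T) / nT T ≤ K * ((SM c' T).card / nT T) + η := by
  classical
  have hpi := Real.pi_pos
  obtain ⟨u, hu⟩ : ∃ u : ℕ, c ≤ u := ⟨⌈c⌉₊, Nat.le_ceil c⟩
  obtain ⟨K, hK1, hcl⟩ := clus hRH u (η := η / 4) (by positivity)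
  have hK0 : (0 : ℝ) < K := by exact_mod_cast hK1
  obtain ⟨δ, hδ0, hδ1, hear⟩ := early (η := η / (2 * K)) (by positivity)
  refine ⟨K, hK0, ?_⟩
  have hNZ2 : ∀ᶠ T in atTop, (NZ T : ℝ) / nT T < 2 := NZ_lim.eventually (gt_mem_nhds (by norm_num))
  filter_upwards [hear, eventually_ge_atTop 10, hNZ2,
    Real.tendsto_log_atTop.eventually_gt_atTop (c * (1 + |Real.log δ|) / (c' - c))] with T t2 hT t3 t4
  obtain ⟨a, ha, ha0, hasum⟩ := hcl T hT
  have hn := nT_pos hT
  have hL := one_lt_log (show 3 ≤ T by linarith)
  have hL0 : 0 < Real.log T := by linarith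
  rw [div_lt_iff₀ hn] at t3
  obtain ⟨N, hN⟩ : ∃ N : ℕ, N = NZ T := ⟨_, rfl⟩
  rw [← hN] at t3 ha
  obtain ⟨B, hB⟩ : ∃ B : ℕ, B = (SM c' T).card := ⟨_, rfl⟩
  -- a near pair starts with a small spacing or is early
  have near : ∀ n j : ℕ, 1 ≤ n → 1 ≤ j → n + j ≤ N →
      nr c T (ord n) (ord (n + j)) ≤ (if del n < c' then (1:ℝ) else 0) +
        (if ord n ≤ δ * T then (1:ℝ) else 0) := by
    intro n j hn1 hj hnj
    have b2 : ord n ≤ ord (n + j) := SG.ord_mono hn1 (Nat.le_add_right _ _)
    have p1 : (0:ℝ) ≤ if del n < c' then (1:ℝ) else 0 := by split_ifs <;> norm_num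
    have p2 : (0:ℝ) ≤ if ord n ≤ δ * T then (1:ℝ) else 0 := by split_ifs <;> norm_num
    by_cases h1 : ord n ≤ δ * T
    · rw [if_pos h1]
      have : nr c T (ord n) (ord (n + j)) ≤ 1 := by unfold nr; split_ifs <;> norm_num
      linarith
    · push Not at h1
      by_cases h2 : |(ord n - ord (n + j)) * Real.log T / (2 * Real.pi)| < c
      · have b3 : ord (n + 1) ≤ ord (n + j) := SG.ord_mono (by omega) (by omega)
        have b4 : ord n ≤ ord (n + 1) := SG.ord_mono hn1 (Nat.le_succ n)
        have b5 : ord (n + 1) ≤ T := (SG.ord_le_iff (by omega) T).2 (by omega)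
        have b6 := cmp hT hδ0 h1.le b4 b5
        obtain ⟨x, hx⟩ : ∃ x : ℝ, x = (ord (n + 1) - ord n) * Real.log T / (2 * Real.pi) := ⟨_, rfl⟩
        rw [← hx] at b6
        have hx0 : 0 ≤ x := by
          rw [hx]
          have : 0 ≤ ord (n + 1) - ord n := by linarith
          positivity
        have hxc : x < c := by
          refine lt_of_le_of_lt ?_ h2
          have e : |(ord n - ord (n + j)) * Real.log T / (2 * Real.pi)| =
              (ord (n + j) - ord n) * Real.log T / (2 * Real.pi) := by
            rw [show (ord n - ord (n + j)) * Real.log T / (2 * Real.pi) =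
              -((ord (n + j) - ord n) * Real.log T / (2 * Real.pi)) by ring, abs_neg, abs_of_nonneg]
            have : 0 ≤ ord (n + j) - ord n := by linarith
            positivity
          rw [e, hx]
          exact div_le_div_of_nonneg_right (mul_le_mul_of_nonneg_right (by linarith) hL0.le)
            (by positivity)
        have hdel : del n = (ord (n + 1) * Real.log (ord (n + 1)) - ord n * Real.log (ord n)) /
            (2 * Real.pi) := rfl
        have h3 : x * ((1 + |Real.log δ|) / Real.log T) < c' - c := by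
          have h4 : x * ((1 + |Real.log δ|) / Real.log T) ≤ c * ((1 + |Real.log δ|) / Real.log T) := by
            apply mul_le_mul_of_nonneg_right hxc.le
            have := abs_nonneg (Real.log δ)
            positivity
          refine h4.trans_lt ?_
          rw [mul_div_assoc', div_lt_iff₀ hL0]
          rw [div_lt_iff₀ (by linarith)] at t4
          linarith
        have h5 : del n < c' := by
          rw [← hdel] at b6
          have := (abs_le.1 b6).2
          linarith
        rw [if_pos h5]
        have : nr c T (ord n) (ord (n + j)) ≤ 1 := by unfold nr; split_ifs <;> norm_num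
        linarith
      · unfold nr
        rw [if_neg h2]
        linarith
  have s2 : ∀ M : ℕ, M ≤ N → ∑ n ∈ Finset.Ioc 0 M, (if ord n ≤ δ * T then (1 : ℝ) else 0) ≤
      NZ (δ * T) := by
    intro M _
    rw [← Finset.sum_filter, Finset.sum_const, nsmul_eq_mul, mul_one]
    have h2 : ((Finset.Ioc 0 M).filter (fun n => ord n ≤ δ * T)).card ≤
        (Finset.Ioc 0 (NZ (δ * T))).card := by
      apply Finset.card_le_card
      intro n hn'
      rw [Finset.mem_filter, Finset.mem_Ioc] at hn'
      rw [Finset.mem_Ioc]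
      exact ⟨hn'.1.1, (SG.ord_le_iff hn'.1.1 _).1 hn'.2⟩
    rw [Nat.card_Ioc, Nat.sub_zero] at h2
    exact_mod_cast h2
  have s1 : ∀ M : ℕ, M ≤ N → ∑ n ∈ Finset.Ioc 0 M, (if del n < c' then (1 : ℝ) else 0) ≤ B := by
    intro M hM
    rw [← Finset.sum_filter, Finset.sum_const, nsmul_eq_mul, mul_one]
    have h2 : ((Finset.Ioc 0 M).filter (fun n => del n < c')).card ≤ B := by
      rw [hB]
      apply Finset.card_le_card
      intro n hn'
      rw [Finset.mem_filter, Finset.mem_Ioc] at hn'
      unfold SM
      rw [Finset.mem_filter, Finset.mem_Ioc, ← hN]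
      exact ⟨⟨by omega, by omega⟩, hn'.2⟩
    exact_mod_cast h2
  -- the bound for each distance of the indices
  have hj : ∀ j ∈ Finset.Ico 1 N, ∑ n ∈ Finset.Ioc 0 (N - j), nr c T (ord n) (ord (n + j)) ≤
      (if j ≤ K then (B + NZ (δ * T) : ℝ) else 0) + (if K < j then N * a j else 0) := by
    intro j hj
    rw [Finset.mem_Ico] at hj
    rcases le_or_gt j K with hjK | hjK
    · rw [if_pos hjK, if_neg (not_lt.2 hjK), add_zero]
      have h1 : ∀ n ∈ Finset.Ioc 0 (N - j), nr c T (ord n) (ord (n + j)) ≤
          (if del n < c' then (1:ℝ) else 0) + (if ord n ≤ δ * T then (1:ℝ) else 0) := by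
        intro n hn'
        rw [Finset.mem_Ioc] at hn'
        exact near n j hn'.1 hj.1 (by omega)
      refine (Finset.sum_le_sum h1).trans ?_
      rw [Finset.sum_add_distrib]
      exact add_le_add (s1 _ (by omega)) (s2 _ (by omega))
    · rw [if_neg (not_le.2 hjK), if_pos hjK, zero_add]
      refine le_trans ?_ (ha j hjK)
      have h1 : ∀ n ∈ Finset.Ioc 0 (N - j), nr c T (ord n) (ord (n + j)) ≤
          if (ord (n + j) - ord n) * Real.log T / (2 * Real.pi) < u then (1:ℝ) else 0 := by
        intro n hn'
        rw [Finset.mem_Ioc] at hn'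
        unfold nr
        by_cases h2 : |(ord n - ord (n + j)) * Real.log T / (2 * Real.pi)| < c
        · have h3 : (ord (n + j) - ord n) * Real.log T / (2 * Real.pi) < u := by
            have h4 := (abs_lt.1 h2).1
            have e : (ord n - ord (n + j)) * Real.log T / (2 * Real.pi) =
              -((ord (n + j) - ord n) * Real.log T / (2 * Real.pi)) := by ring
            rw [e] at h4
            linarith
          rw [if_pos h2, if_pos h3]
        · rw [if_neg h2]
          split_ifs <;> norm_num
      refine (Finset.sum_le_sum h1).trans ?_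
      rw [← Finset.sum_filter, Finset.sum_const, nsmul_eq_mul, mul_one]
  -- total
  have htot : PS (fun n n' => nr c T (ord n) (ord n')) N ≤
      K * (B + NZ (δ * T)) + N * (η / 4) := by
    unfold Pool.Agent.Y763.AH.PS
    refine (Finset.sum_le_sum hj).trans ?_
    rw [Finset.sum_add_distrib]
    refine add_le_add ?_ ?_
    · rw [← Finset.sum_filter, Finset.sum_const, nsmul_eq_mul]
      have h1 : ((Finset.Ico 1 N).filter (fun j => j ≤ K)).card ≤ K := by
        have h2 : ((Finset.Ico 1 N).filter (fun j => j ≤ K)) ⊆ Finset.Icc 1 K := by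
          intro j hj'
          rw [Finset.mem_filter, Finset.mem_Ico] at hj'
          rw [Finset.mem_Icc]
          exact ⟨hj'.1.1, hj'.2⟩
        refine (Finset.card_le_card h2).trans ?_
        rw [Nat.card_Icc]
        omega
      exact mul_le_mul_of_nonneg_right (by exact_mod_cast h1) (by positivity)
    · rw [← Finset.sum_filter]
      have h1 : ((Finset.Ico 1 N).filter (fun j => K < j)) = Finset.Ico (K + 1) N := by
        ext j
        rw [Finset.mem_filter, Finset.mem_Ico, Finset.mem_Ico]
        omega
      rw [h1, ← Finset.mul_sum]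
      exact mul_le_mul_of_nonneg_left (hasum N) (Nat.cast_nonneg _)
  rw [← hN, ← hB, div_le_iff₀ hn]
  have e1 : (K * ((B : ℝ) / nT T) + η) * nT T = K * B + η * nT T := by
    field_simp
  rw [e1]
  have e2 : K * (NZ (δ * T) : ℝ) ≤ η / 2 * nT T := by
    have := mul_le_mul_of_nonneg_left t2 hK0.le
    have e3 : (K : ℝ) * (η / (2 * K) * nT T) = η / 2 * nT T := by field_simp
    linarith
  have e4 : (N : ℝ) * (η / 4) ≤ η / 2 * nT T := by nlinarith
  linarith

end Q172.HS
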