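import Pool.Agent.Q172.HS.S3

/-! Kernel inequalities and the main theorems. -/

set_option autoImplicit false

open MeasureTheory Set Filter Topology

namespace Q172.HS

open Pool.Agent.Y749.Rig
open Pool.Agent.Y763.AH
open SG (ord NZ)
open H177.Lat (del)

/-! ### Linear operations on the pair sums -/

/-- the Cauchy kernel -/
noncomputable def cy (x : ℝ) : ℝ := 1 / (1 + x ^ 2)

lemma cy_pos (x : ℝ) : 0 < cy x := by unfold cy; positivity

lemma PK_cy (hRH : RiemannHypothesis) : ∃ C0 : ℝ, 0 < C0 ∧ ∀ᶠ T in atTop, PK cy T / nT T ≤ C0 := by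
  obtain ⟨C, hC, hB⟩ := Mp_bdd
  have hC0 : 0 ≤ C := by linarith
  have hD := DD_nonneg 0
  refine ⟨2 * C * DD 0 + 1, by positivity, ?_⟩
  filter_upwards [hB, eventually_ge_atTop 10] with T hT hT10
  have hn := nT_pos hT10
  have i3 : Integrable (fun x : ℝ => 1 / (1 + x ^ 2)) (Mp T) := by
    refine Bdd.integrable hC0 hT ?_ ⟨1, fun x => ?_⟩
    · exact continuous_const.div (by fun_prop) fun x => by positivity
    · rw [abs_of_pos (by positivity)]
  have h0 : ∫ x, cy x ∂(Mp T) ≤ 2 * C * DD 0 := by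
    have h1 := lint_le hC0 hT 0
    have e : {x : ℝ | ((0 : ℕ) : ℝ) ≤ |x|} = Set.univ := by
      ext x
      simp
    rw [e, Measure.restrict_univ] at h1
    unfold cy
    rw [integral_eq_lintegral_of_nonneg_ae (ae_of_all _ fun x => by positivity)
      i3.aestronglyMeasurable]
    exact ENNReal.toReal_le_of_le_ofReal (by positivity) h1
  rw [Mp_integral hT10 cy, div_le_iff₀ hn] at h0
  obtain ⟨F, hF⟩ : ∃ F : ℝ → ℝ → ℝ, ∀ x x', F x x' = cy ((x - x') * Real.log T / (2 * Real.pi)) :=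
    ⟨_, fun x x' => rfl⟩
  have e1 : RR cy (ZZ T) (ZZ T) (Real.log T) = ∑ s ∈ ZZ T, ∑ s' ∈ ZZ T, mm s * mm s' * F s.im s'.im := by
    unfold RR
    refine Finset.sum_congr rfl fun s _ => Finset.sum_congr rfl fun s' _ => ?_
    rw [hF]
  have hF0 : ∀ x x', 0 ≤ F x x' := fun x x' => by rw [hF]; exact (cy_pos _).le
  have hFs : ∀ x x', F x x' = F x' x := by
    intro x x'
    rw [hF, hF]
    unfold cy
    congr 2
    ring
  rw [e1, sum_idx2 hRH T F, full_sum (fun n n' => F (ord n) (ord n')) (fun n n' => hFs _ _)] at h0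
  have h1 : 0 ≤ ∑ n ∈ Finset.Ioc 0 (NZ T), F (ord n) (ord n) :=
    Finset.sum_nonneg fun n _ => hF0 _ _
  have h2 : 0 ≤ PS (fun n n' => F (ord n) (ord n')) (NZ T) := PS_nonneg fun _ _ => hF0 _ _
  have h3 : PK cy T ≤ PS (fun n n' => F (ord n) (ord n')) (NZ T) := by
    refine PS_mono fun n j _ _ _ => ?_
    unfold kw
    rw [hF]
    exact mul_le_of_le_one_right (cy_pos _).le (ww_le _)
  rw [div_le_iff₀ hn]
  nlinarith

lemma PS_add (f g : ℕ → ℕ → ℝ) (N : ℕ) : PS (fun n n' => f n n' + g n n') N = PS f N + PS g N := by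
  unfold Pool.Agent.Y763.AH.PS
  rw [← Finset.sum_add_distrib]
  exact Finset.sum_congr rfl fun j _ => Finset.sum_add_distrib

lemma PS_smul (c : ℝ) (f : ℕ → ℕ → ℝ) (N : ℕ) : PS (fun n n' => c * f n n') N = c * PS f N := by
  unfold Pool.Agent.Y763.AH.PS
  rw [Finset.mul_sum]
  exact Finset.sum_congr rfl fun j _ => (Finset.mul_sum _ _ _).symm

/-- positive and negative parts of the kernel -/
noncomputable def Kp (R x : ℝ) : ℝ := max 0 (Kf R x)

noncomputable def Km (R x : ℝ) : ℝ := max 0 (-Kf R x)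

lemma K_parts (R x : ℝ) : Kf R x = Kp R x - Km R x := by
  unfold Kp Km
  rcases le_total 0 (Kf R x) with h | h
  · rw [max_eq_right h, max_eq_left (by linarith)]; ring
  · rw [max_eq_left h, max_eq_right (by linarith)]; ring

lemma PK_parts (R T : ℝ) : PK (Kf R) T = PK (Kp R) T - PK (Km R) T := by
  have h : PK (Kp R) T = PK (Kf R) T + PK (Km R) T := by
    unfold PK
    rw [← PS_add]
    congr 1
    funext n n'
    unfold kw
    rw [K_parts]
    ring
  linarith

lemma PK_nonneg {k : ℝ → ℝ} (hk : ∀ x, 0 ≤ k x) (T : ℝ) : 0 ≤ PK k T :=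
  PS_nonneg fun _ _ => mul_nonneg (hk _) (ww_pos _).le

/-! ### Kernel inequalities -/

lemma Kf_in {R : ℝ} (hR : 0 < R) {x : ℝ} (h : |x| ≤ 1 / R) : 0 ≤ Kf R x := by
  have hin : ∀ y : ℝ, |y| < 1 / R → 0 ≤ Kf R y := by
    intro y hy
    have h1 := Kf_mul hR y
    have h2 := fl_tr_nonneg hR y
    have h3 : (R * y) ^ 2 < 1 := by
      rw [← sq_abs, abs_mul, abs_of_pos hR]
      rw [lt_div_iff₀ hR] at hy
      have h4 : R * |y| < 1 := by linarith
      have h5 : 0 ≤ R * |y| := by positivity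
      nlinarith
    by_contra hc
    push Not at hc
    nlinarith
  rcases h.lt_or_eq with h1 | h1
  · exact hin x h1
  · have e : Kf R x = Kf R (1 / R) := by
      rcases abs_choice x with h2 | h2
      · rw [← h1, h2]
      · rw [← h1, h2, Kf_even]
    rw [e]
    have hc := (Kf_cont hR).continuousAt (x := 1 / R)
    have h3 : Tendsto (Kf R) (𝓝[<] (1 / R)) (𝓝 (Kf R (1 / R))) := hc.tendsto.mono_left nhdsWithin_le_nhds
    refine ge_of_tendsto h3 ?_
    have hpos : 0 < 1 / R := by positivity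
    filter_upwards [self_mem_nhdsWithin, nhdsWithin_le_nhds (lt_mem_nhds hpos)] with y hy hy0
    have hy' : y < 1 / R := hy
    exact hin y (by rwa [abs_of_pos hy0])

lemma Kf_edge' {R : ℝ} (hR : 0 < R) : Kf R (1 / R) = 0 :=
  le_antisymm (Kf_edge hR) (Kf_in hR (by rw [abs_of_pos (by positivity)]))

lemma S_edge {R : ℝ} (hR : 0 < R) : fl (tr R) (1 / R) = 0 := by
  rw [← Kf_mul hR, Kf_edge' hR, zero_mul]

/-- continuity near the edge -/
lemma edge_small {R : ℝ} (hR : 0 < R) {ρ : ℝ} (hρ : 0 < ρ) : ∃ τ : ℝ, 0 < τ ∧ τ < 1 / R ∧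
    ∀ x : ℝ, |x| < 1 / R + τ → 1 / R - τ < |x| →
      |Kf R x| ≤ ρ * cy x ∧ |fl (tr R) x| ≤ ρ * cy x := by
  have hR1 : 0 < 1 / R := by positivity
  obtain ⟨ρ', hρ'⟩ : ∃ ρ' : ℝ, ρ' = ρ / (1 + (1 / R + 1) ^ 2) := ⟨_, rfl⟩
  have hρ'0 : 0 < ρ' := by rw [hρ']; positivity
  have c1 := Metric.continuousAt_iff.1 ((Kf_cont hR).continuousAt (x := 1 / R)) ρ' hρ'0
  have c2 := Metric.continuousAt_iff.1 ((fl_cont (tr_int hR)).continuousAt (x := 1 / R)) ρ' hρ'0
  obtain ⟨τ1, h1, h1'⟩ := c1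
  obtain ⟨τ2, h2, h2'⟩ := c2
  refine ⟨min (min τ1 τ2) (min (1 / (2 * R)) 1), by positivity, ?_, ?_⟩
  · refine (min_le_right _ _).trans_lt ((min_le_left _ _).trans_lt ?_)
    rw [div_lt_div_iff₀ (by positivity) hR]
    linarith
  · intro x hx1 hx2
    have m1 : min (min τ1 τ2) (min (1 / (2 * R)) 1) ≤ τ1 := (min_le_left _ _).trans (min_le_left _ _)
    have m2 : min (min τ1 τ2) (min (1 / (2 * R)) 1) ≤ τ2 := (min_le_left _ _).trans (min_le_right _ _)
    have m3 : min (min τ1 τ2) (min (1 / (2 * R)) 1) ≤ 1 := (min_le_right _ _).trans (min_le_right _ _)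
    have hd : |(|x|) - 1 / R| < min (min τ1 τ2) (min (1 / (2 * R)) 1) := by
      rw [abs_lt]
      constructor <;> linarith
    have a1 := h1' (x := |x|) (by rw [Real.dist_eq]; linarith)
    have a2 := h2' (x := |x|) (by rw [Real.dist_eq]; linarith)
    rw [Kf_edge' hR, Real.dist_eq, sub_zero] at a1
    rw [S_edge hR, Real.dist_eq, sub_zero] at a2
    have e1 : Kf R |x| = Kf R x := by
      rcases abs_choice x with h | h
      · rw [h]
      · rw [h, Kf_even]
    have e2 : fl (tr R) |x| = fl (tr R) x := by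
      rcases abs_choice x with h | h
      · rw [h]
      · rw [h, fl_even]
    rw [e1] at a1
    rw [e2] at a2
    have h5 : ρ' ≤ ρ * cy x := by
      rw [hρ']
      unfold cy
      rw [mul_one_div]
      apply div_le_div_of_nonneg_left hρ.le (by positivity)
      have h6 : |x| ≤ 1 / R + 1 := by linarith
      have h7 : x ^ 2 ≤ (1 / R + 1) ^ 2 := by
        rw [← sq_abs]
        exact pow_le_pow_left₀ (abs_nonneg _) h6 2
      linarith
    exact ⟨a1.le.trans h5, a2.le.trans h5⟩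

open Classical in
/-- (I1) -/
lemma I1 {R : ℝ} (hR : 0 < R) {ρ : ℝ} (hρ : 0 < ρ) : ∃ δ : ℝ, 0 < δ ∧ δ < 1 / R ∧ ∀ x : ℝ,
    Kp R x ≤ (if |x| < 1 / R - δ then 1 else 0) + ρ * cy x := by
  obtain ⟨τ, h0, h1, h2⟩ := edge_small hR hρ
  refine ⟨τ / 2, by positivity, by linarith, fun x => ?_⟩
  have hc := mul_pos hρ (cy_pos x)
  unfold Kp
  by_cases c1 : |x| < 1 / R - τ / 2
  · rw [if_pos c1]
    refine max_le (by linarith) ?_
    have := Kf_le_one hR x
    linarith
  · rw [if_neg c1, zero_add]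
    push Not at c1
    refine max_le hc.le ?_
    by_cases c2 : |x| < 1 / R + τ
    · exact (le_abs_self _).trans (h2 x c2 (by linarith)).1
    · push Not at c2
      have := Kf_out' hR (x := x) (by linarith)
      linarith

/-- (I2) -/
lemma I2 {R : ℝ} (hR : 0 < R) {ρ : ℝ} (hρ : 0 < ρ) : ∃ C : ℝ, 0 < C ∧ ∀ x : ℝ,
    Km R x ≤ C * fl (tr R) x + ρ * cy x := by
  obtain ⟨τ, h0, h1, h2⟩ := edge_small hR hρ
  refine ⟨1 / (2 * R * τ), by positivity, fun x => ?_⟩
  have hc := mul_pos hρ (cy_pos x)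
  have hS := fl_tr_nonneg hR x
  have hCS : 0 ≤ 1 / (2 * R * τ) * fl (tr R) x := by positivity
  unfold Km
  refine max_le (by linarith) ?_
  by_cases c1 : |x| ≤ 1 / R
  · have := Kf_in hR c1
    linarith
  · push Not at c1
    by_cases c2 : |x| < 1 / R + τ
    · have := (h2 x c2 (by linarith)).1
      have h3 := neg_abs_le (Kf R x)
      linarith
    · push Not at c2
      have h3 := Kf_mul hR x
      have h4 : 2 * R * τ ≤ (R * x) ^ 2 - 1 := by
        rw [← sq_abs, abs_mul, abs_of_pos hR]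
        have h5 : 1 + R * τ ≤ R * |x| := by
          have := mul_le_mul_of_nonneg_left c2 hR.le
          rw [mul_add, mul_one_div_cancel hR.ne'] at this
          exact this
        have h6 : 0 ≤ R * τ := by positivity
        nlinarith
      have h5 := Kf_out' hR (x := x) (by linarith)
      have h6 : (2 * R * τ) * (-Kf R x) ≤ fl (tr R) x := by nlinarith
      have h7 : -Kf R x ≤ 1 / (2 * R * τ) * fl (tr R) x := by
        rw [one_div, ← div_eq_inv_mul, le_div_iff₀ (by positivity)]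
        linarith
      linarith

open Classical in
/-- (I3) -/
lemma I3 {R : ℝ} (hR : 0 < R) {ρ : ℝ} (hρ : 0 < ρ) (u : ℕ) : ∃ δ : ℝ, 0 < δ ∧ δ < 1 / R ∧
    ∀ x : ℝ, |x| < u → fl (tr R) x ≤ (if |x| < 1 / R - δ then 1 else 0) +
      (R * u) ^ 2 * Km R x + ρ * cy x := by
  obtain ⟨τ, h0, h1, h2⟩ := edge_small hR hρ
  refine ⟨τ / 2, by positivity, by linarith, fun x hx => ?_⟩
  have hc := mul_pos hρ (cy_pos x)
  have hKm : 0 ≤ Km R x := le_max_left _ _
  have hKu : 0 ≤ (R * u) ^ 2 * Km R x := by positivity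
  by_cases c1 : |x| < 1 / R - τ / 2
  · rw [if_pos c1]
    have := g_le_one hR x
    linarith
  · rw [if_neg c1, zero_add]
    push Not at c1
    by_cases c2 : |x| < 1 / R + τ
    · have := (le_abs_self _).trans (h2 x c2 (by linarith)).2
      linarith
    · push Not at c2
      have h3 := Kf_mul hR x
      have h5 := Kf_out' hR (x := x) (by linarith)
      have h6 : Km R x = -Kf R x := max_eq_right (by linarith)
      have h7 : (R * x) ^ 2 ≤ (R * u) ^ 2 := by
        rw [mul_pow, mul_pow]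
        refine mul_le_mul_of_nonneg_left ?_ (by positivity)
        rw [← sq_abs]
        exact pow_le_pow_left₀ (abs_nonneg _) hx.le 2
      rw [h6]
      nlinarith

end Q172.HS
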