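import Pool.Agent.Q172.HS.S4

/-! The criteria for small gaps. -/

set_option autoImplicit false

open MeasureTheory Set Filter Topology

namespace Q172.HS

open Pool.Agent.Y749.Rig
open Pool.Agent.Y763.AH
open SG (ord NZ)
open H177.Lat (del)

/-- the positive part is controlled by the near pairs -/
lemma Kp_le {R c ρ : ℝ} (h : ∀ x : ℝ, Kp R x ≤ (open Classical in if |x| < c then 1 else 0) + ρ * cy x)
    (T : ℝ) : PK (Kp R) T ≤ PS (fun n n' => nr c T (ord n) (ord n')) (NZ T) + ρ * PK cy T := by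
  unfold PK
  rw [← PS_smul, ← PS_add]
  refine PS_mono fun n j _ _ _ => ?_
  unfold kw nr
  have h1 := h ((ord n - ord (n + j)) * Real.log T / (2 * Real.pi))
  have h2 := (ww_pos (ord n - ord (n + j))).le
  have h3 := ww_le (ord n - ord (n + j))
  have h4 := mul_le_mul_of_nonneg_right h1 h2
  rw [add_mul] at h4
  refine h4.trans ?_
  rw [mul_assoc]
  refine add_le_add ?_ le_rfl
  refine mul_le_of_le_one_right ?_ h3
  split_ifs <;> norm_num

/-- **The criterion.** -/
theorem crit (RH : RiemannHypothesis) {R κ : ℝ} (hR : 1 ≤ R) (hκ : 0 < κ) (hκ1 : κ < 1) {η : ℝ}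
    (hη : 0 < η) : ∃ δ κ' : ℝ, 0 < δ ∧ δ < 1 / R ∧ 0 < κ' ∧ ∀ᶠ T in atTop,
      JK R κ T < bK R κ + η ∨ κ' ≤ ((SM (1 / R - δ) T).card : ℝ) / NZ T := by
  have hR0 : 0 < R := by linarith
  obtain ⟨C0, hC0, hcy⟩ := PK_cy RH
  obtain ⟨δ1, hδ0, hδ1, hI⟩ := I1 hR0 (ρ := η / (4 * R * C0)) (by positivity)
  obtain ⟨K, hK, hnear⟩ := near_pairs RH (c := 1 / R - δ1) (c' := 1 / R - δ1 / 2)
    (η := η / (4 * R)) (by linarith) (by linarith) (by positivity)
  refine ⟨δ1 / 2, η / (8 * R * K), by positivity, by linarith, by positivity, ?_⟩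
  have hlim := (JK_lim RH hR hκ hκ1).eventually (gt_mem_nhds (show bK R κ < bK R κ + η / 8 by linarith))
  filter_upwards [hcy, hnear, hlim, eventually_ge_atTop 10,
    NZ_lim.eventually (gt_mem_nhds (show (1:ℝ) < 2 by norm_num)),
    NZ_lim.eventually (lt_mem_nhds (show (0:ℝ) < 1 by norm_num))] with T t1 t2 t3 hT t4 t5
  have hn := nT_pos hT
  rw [or_iff_not_imp_left, not_lt]
  intro hJ
  rw [div_lt_iff₀ hn] at t4
  rw [lt_div_iff₀ hn, zero_mul] at t5
  have h1 : 7 * η / 8 < R * (PK (Kf R) T / nT T) := by linarith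
  have h2 : PK (Kf R) T ≤ PK (Kp R) T := by
    rw [PK_parts]
    have := PK_nonneg (k := Km R) (fun _ => le_max_left _ _) T
    linarith
  have h3 := Kp_le hI T
  obtain ⟨P, hP⟩ : ∃ P : ℝ, P = PS (fun n n' => nr (1 / R - δ1) T (ord n) (ord n')) (NZ T) := ⟨_, rfl⟩
  rw [← hP] at t2 h3
  obtain ⟨s, hs⟩ : ∃ s : ℝ, s = ((SM (1 / R - δ1 / 2) T).card : ℝ) / nT T := ⟨_, rfl⟩
  rw [← hs] at t2
  have h4 : PK (Kf R) T / nT T ≤ K * s + η / (4 * R) + η / (4 * R * C0) * C0 := by
    have e : PK (Kf R) T / nT T ≤ (P + η / (4 * R * C0) * PK cy T) / nT T :=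
      div_le_div_of_nonneg_right (h2.trans h3) hn.le
    rw [add_div, mul_div_assoc] at e
    have := mul_le_mul_of_nonneg_left t1 (show 0 ≤ η / (4 * R * C0) by positivity)
    linarith
  have h5 : R * (PK (Kf R) T / nT T) ≤ R * K * s + η / 2 := by
    have h6 := mul_le_mul_of_nonneg_left h4 hR0.le
    have e : R * (K * s + η / (4 * R) + η / (4 * R * C0) * C0) = R * K * s + η / 2 := by
      field_simp
      ring
    linarith
  have h6 : 3 * η / 8 < R * K * s := by linarith
  have h7 : ((SM (1 / R - δ1 / 2) T).card : ℝ) = s * nT T := by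
    rw [hs, div_mul_cancel₀ _ hn.ne']
  rw [h7, div_le_div_iff₀ (show (0:ℝ) < 8 * R * K from mul_pos (mul_pos (by norm_num) hR0) hK) t5]
  have hs0 : 0 ≤ s := by rw [hs]; exact div_nonneg (Nat.cast_nonneg _) hn.le
  have h8 : η * (NZ T : ℝ) ≤ η * (2 * nT T) := mul_le_mul_of_nonneg_left t4.le hη.le
  have h9 : 3 * η / 8 * nT T ≤ R * K * s * nT T := mul_le_mul_of_nonneg_right h6.le hn.le
  have h10 : 0 ≤ η * nT T := by positivity
  nlinarith

/-- the integral over `(1, R)` -/
noncomputable def J1 (R T : ℝ) : ℝ := ∫ α in (1:ℝ)..R, psi (α / R) * Fr T α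

/-- its extremal value -/
noncomputable def b1 (R : ℝ) : ℝ := (R - 1) / 2 - ∫ u in (0:ℝ)..1, psi (u / R) * u

theorem crit1 (RH : RiemannHypothesis) {R : ℝ} (hR : 1 ≤ R) {η : ℝ} (hη : 0 < η) :
    ∃ δ κ' : ℝ, 0 < δ ∧ δ < 1 / R ∧ 0 < κ' ∧ ∀ᶠ T in atTop,
      J1 R T < b1 R + η ∨ κ' ≤ ((SM (1 / R - δ) T).card : ℝ) / NZ T := by
  have hR0 : 0 < R := by linarith
  obtain ⟨κ, hκ⟩ : ∃ κ : ℝ, κ = 1 - min (1 / 2) (η / 2) := ⟨_, rfl⟩
  have m1 : min (1 / 2) (η / 2) ≤ 1 / 2 := min_le_left _ _
  have m2 : min (1 / 2) (η / 2) ≤ η / 2 := min_le_right _ _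
  have m3 : 0 < min (1 / 2) (η / 2) := by positivity
  obtain ⟨δ, κ', h1, h2, h3, h4⟩ := crit RH hR (κ := κ) (by linarith) (by linarith) (η := η / 2)
    (by positivity)
  refine ⟨δ, κ', h1, h2, h3, ?_⟩
  filter_upwards [h4, eventually_ge_atTop 10] with T t1 hT
  refine t1.imp_left fun t2 => ?_
  have hF0 := Fr_nonneg hT
  have hFc := Fr_cont T
  have hpc := psi_cont
  have c1 : Continuous fun α : ℝ => psi (α / R) * Fr T α := by fun_prop
  have e1 : J1 R T ≤ JK R κ T := by
    unfold JK J1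
    rw [← intervalIntegral.integral_add_adjacent_intervals (a := κ) (b := 1) (c := R)
      (c1.intervalIntegrable _ _) (c1.intervalIntegrable _ _)]
    have : 0 ≤ ∫ α in κ..1, psi (α / R) * Fr T α :=
      intervalIntegral.integral_nonneg (by linarith) fun α hα =>
        mul_nonneg (psi_nonneg (by rw [div_le_one hR0]; linarith [hα.2])) (hF0 α)
    linarith
  have e2 : bK R κ ≤ b1 R + η / 2 := by
    unfold bK b1
    have c2 : Continuous fun u : ℝ => psi (u / R) * u := by fun_prop
    rw [← intervalIntegral.integral_add_adjacent_intervals (a := 0) (b := κ) (c := 1)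
      (c2.intervalIntegrable _ _) (c2.intervalIntegrable _ _)]
    have h5 : ∫ u in κ..1, psi (u / R) * u ≤ ∫ _u in κ..1, (1:ℝ) := by
      refine intervalIntegral.integral_mono_on (by linarith) (c2.intervalIntegrable _ _)
        intervalIntegrable_const fun u hu => ?_
      have hu0 : 0 ≤ u := by linarith [hu.1]
      exact mul_le_one₀ (psi_le (by positivity)) hu0 hu.2
    rw [intervalIntegral.integral_const, smul_eq_mul, mul_one] at h5
    linarith
  linarith

lemma sin_val : ∫ u in (0:ℝ)..1, u * Real.sin (Real.pi * u) = 1 / Real.pi := by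
  have hpi := Real.pi_pos
  have h : ∀ x ∈ uIcc (0:ℝ) 1, HasDerivAt (fun u : ℝ => -(u * Real.cos (Real.pi * u)) / Real.pi +
      Real.sin (Real.pi * u) / Real.pi ^ 2) (x * Real.sin (Real.pi * x)) x := by
    intro x _
    have h1 : HasDerivAt (fun t : ℝ => Real.pi * t) Real.pi x := by
      simpa using (hasDerivAt_id x).const_mul Real.pi
    have h2 := ((((hasDerivAt_id x).mul h1.cos).neg).div_const Real.pi).add
      (h1.sin.div_const (Real.pi ^ 2))
    refine h2.congr_deriv ?_
    simp only [id]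
    field_simp
    ring
  rw [intervalIntegral.integral_eq_sub_of_hasDerivAt h (by apply Continuous.intervalIntegrable; fun_prop)]
  simp

lemma val2 (κ : ℝ) :
    Real.pi * (jc 2 κ - 2 * bK 2 κ) = ∫ u in (0:ℝ)..κ, u * Real.sin (Real.pi * u) := by
  have hpi := Real.pi_pos
  have e1 : ∫ u in (0:ℝ)..κ, psi (u / 2) * u = κ ^ 2 / 2 - κ ^ 3 / 6 +
      1 / (2 * Real.pi) * ∫ u in (0:ℝ)..κ, u * Real.sin (Real.pi * u) := by
    have e2 : ∀ u : ℝ, psi (u / 2) * u = (u - 1 / 2 * u ^ 2) +
        1 / (2 * Real.pi) * (u * Real.sin (Real.pi * u)) := by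
      intro u
      unfold psi
      rw [show 2 * Real.pi * (u / 2) = Real.pi * u by ring]
      field_simp
    simp_rw [e2]
    rw [intervalIntegral.integral_add (by apply Continuous.intervalIntegrable; fun_prop)
      (by apply Continuous.intervalIntegrable; fun_prop), intervalIntegral.integral_const_mul,
      intervalIntegral.integral_sub (by apply Continuous.intervalIntegrable; fun_prop)
      (by apply Continuous.intervalIntegrable; fun_prop), intervalIntegral.integral_const_mul,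
      integral_id, integral_pow]
    norm_num
    ring
  unfold jc bK
  rw [e1]
  field_simp
  ring

theorem sine (RH : RiemannHypothesis) {η : ℝ} (hη : 0 < η) :
    ∃ δ κ' : ℝ, 0 < δ ∧ δ < 1 / 2 ∧ 0 < κ' ∧ ∀ᶠ T in atTop,
      1 / Real.pi - η < ∫ α in (1:ℝ)..2, |Real.sin (Real.pi * α)| * Fr T α ∨
        κ' ≤ ((SM (1 / 2 - δ) T).card : ℝ) / NZ T := by
  have hpi := Real.pi_pos
  obtain ⟨κ, hκ⟩ : ∃ κ : ℝ, κ = 1 - min (1 / 2) (η / 2) := ⟨_, rfl⟩
  have m1 : min (1 / 2) (η / 2) ≤ 1 / 2 := min_le_left _ _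
  have m2 : min (1 / 2) (η / 2) ≤ η / 2 := min_le_right _ _
  have m3 : 0 < min (1 / 2) (η / 2) := by positivity
  have hκ0 : 0 < κ := by linarith
  have hκ1 : κ < 1 := by linarith
  obtain ⟨ε, hε⟩ : ∃ ε : ℝ, ε = η / (6 * Real.pi) := ⟨_, rfl⟩
  have hε0 : 0 < ε := by rw [hε]; positivity
  obtain ⟨δ, κ', h1, h2, h3, h4⟩ := crit RH (R := 2) (by norm_num) hκ0 hκ1 hε0
  refine ⟨δ, κ', h1, h2, h3, ?_⟩
  filter_upwards [h4, lower RH (R := 2) (by norm_num) hκ0 hκ1 hε0, eventually_ge_atTop 10] with T t1 t2 hT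
  refine t1.imp_left fun t3 => ?_
  have hF0 := Fr_nonneg hT
  have hFc := Fr_cont T
  have hpc := psi_cont
  have e1 : 2 * JK 2 κ T = JJ 2 κ T + 1 / Real.pi * ∫ α in κ..2, Real.sin (Real.pi * α) * Fr T α := by
    unfold JK JJ
    rw [← intervalIntegral.integral_const_mul, ← intervalIntegral.integral_const_mul,
      ← intervalIntegral.integral_add (by apply Continuous.intervalIntegrable; fun_prop)
      (by apply Continuous.intervalIntegrable; fun_prop)]
    refine intervalIntegral.integral_congr fun α _ => ?_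
    show 2 * (psi (α / 2) * Fr T α) = (2 - α) * Fr T α +
      1 / Real.pi * (Real.sin (Real.pi * α) * Fr T α)
    unfold psi
    rw [show 2 * Real.pi * (α / 2) = Real.pi * α by ring]
    field_simp
  have cs : Continuous fun α : ℝ => Real.sin (Real.pi * α) * Fr T α := by fun_prop
  have e2 : ∫ α in (1:ℝ)..2, |Real.sin (Real.pi * α)| * Fr T α =
      -∫ α in (1:ℝ)..2, Real.sin (Real.pi * α) * Fr T α := by
    rw [← intervalIntegral.integral_neg]
    refine intervalIntegral.integral_congr fun α hα => ?_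
    rw [uIcc_of_le (by norm_num)] at hα
    show |Real.sin (Real.pi * α)| * Fr T α = -(Real.sin (Real.pi * α) * Fr T α)
    have : Real.sin (Real.pi * α) ≤ 0 := by
      rw [show Real.pi * α = Real.pi * (α - 2) + 2 * Real.pi by ring, Real.sin_add_two_pi]
      exact Real.sin_nonpos_of_nonpos_of_neg_pi_le (by nlinarith [hα.2]) (by nlinarith [hα.1])
    rw [abs_of_nonpos this]
    ring
  have e3 := intervalIntegral.integral_add_adjacent_intervals (a := κ) (b := 1) (c := 2)
    (cs.intervalIntegrable (μ := volume) _ _) (cs.intervalIntegrable (μ := volume) _ _)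
  have e4 : 0 ≤ ∫ α in κ..1, Real.sin (Real.pi * α) * Fr T α := by
    refine intervalIntegral.integral_nonneg hκ1.le fun α hα => mul_nonneg ?_ (hF0 α)
    exact Real.sin_nonneg_of_nonneg_of_le_pi (by nlinarith [hα.1]) (by nlinarith [hα.2])
  have e5 := val2 κ
  have cu : Continuous fun u : ℝ => u * Real.sin (Real.pi * u) := by fun_prop
  have e6 := intervalIntegral.integral_add_adjacent_intervals (a := 0) (b := κ) (c := 1)
    (cu.intervalIntegrable (μ := volume) _ _) (cu.intervalIntegrable (μ := volume) _ _)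
  rw [sin_val] at e6
  have e7 : ∫ u in κ..1, u * Real.sin (Real.pi * u) ≤ ∫ _u in κ..1, (1:ℝ) := by
    refine intervalIntegral.integral_mono_on hκ1.le (cu.intervalIntegrable _ _)
      intervalIntegrable_const fun u hu => ?_
    have hu0 : 0 ≤ u := by linarith [hu.1]
    have hs : 0 ≤ Real.sin (Real.pi * u) :=
      Real.sin_nonneg_of_nonneg_of_le_pi (by positivity) (by nlinarith [hu.2])
    exact mul_le_one₀ hu.2 hs (Real.sin_le_one _)
  rw [intervalIntegral.integral_const, smul_eq_mul, mul_one] at e7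
  -- assembling
  obtain ⟨I, hI⟩ : ∃ I : ℝ, I = ∫ α in κ..2, Real.sin (Real.pi * α) * Fr T α := ⟨_, rfl⟩
  rw [← hI] at e1 e3
  have e8 : I = Real.pi * (2 * JK 2 κ T - JJ 2 κ T) := by
    rw [e1]
    field_simp
    ring
  have e9 : I < Real.pi * (2 * bK 2 κ - jc 2 κ + 3 * ε) := by
    rw [e8]
    exact mul_lt_mul_of_pos_left (by linarith) hpi
  have e10 : Real.pi * (2 * bK 2 κ - jc 2 κ + 3 * ε) = -(Real.pi * (jc 2 κ - 2 * bK 2 κ)) + η / 2 := by
    rw [hε]
    field_simp
    ring
  rw [e10, e5] at e9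
  rw [e2]
  linarith

/-! ### The extremal case -/

lemma to_nT {l : Filter ℝ} (hl : l ≤ atTop) {f : ℝ → ℕ}
    (h : Tendsto (fun T => (f T : ℝ) / NZ T) l (𝓝 0)) : Tendsto (fun T => (f T : ℝ) / nT T) l (𝓝 0) := by
  have h1 := NZ_lim.mono_left hl
  have hpos : ∀ᶠ T in l, 0 < (NZ T : ℝ) := by
    filter_upwards [h1.eventually (lt_mem_nhds (show (0 : ℝ) < 1 by norm_num)),
      hl (eventually_ge_atTop 10)] with T a1 a2
    have := nT_pos a2
    rwa [lt_div_iff₀ this, zero_mul] at a1
  have h3 := h.mul h1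
  rw [zero_mul] at h3
  refine h3.congr' ?_
  filter_upwards [hpos] with T hT
  field_simp

theorem iff_km (RH : RiemannHypothesis) {R κ : ℝ} (hR : 1 ≤ R) (hκ : 0 < κ) (hκ1 : κ < 1)
    {l : Filter ℝ} (hl : l ≤ atTop)
    (hs : ∀ δ : ℝ, 0 < δ → Tendsto (fun T => ((SM (1 / R - δ) T).card : ℝ) / NZ T) l (𝓝 0)) :
    Tendsto (JK R κ) l (𝓝 (bK R κ)) ↔
      ∀ ε : ℝ, 0 < ε → Tendsto (fun T => ((BT R ε T).card : ℝ) / NZ T) l (𝓝 0) := by
  have hR0 : 0 < R := by linarith
  obtain ⟨C0, hC0, hcy⟩ := PK_cy RH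
  -- near pairs
  have near0 : ∀ δ : ℝ, 0 < δ → δ < 1 / R → ∀ η : ℝ, 0 < η → ∀ᶠ T in l,
      PS (fun n n' => nr (1 / R - δ) T (ord n) (ord n')) (NZ T) / nT T ≤ η := by
    intro δ h1 h2 η hη
    obtain ⟨K, hK, hnear⟩ := near_pairs RH (c := 1 / R - δ) (c' := 1 / R - δ / 2)
      (η := η / 2) (by linarith) (by linarith) (by positivity)
    have h3 := to_nT hl (hs (δ / 2) (by positivity))
    filter_upwards [hl hnear, h3.eventually (gt_mem_nhds (show (0:ℝ) < η / (2 * K) by positivity))]
      with T t1 t2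
    have t3 := mul_lt_mul_of_pos_left t2 hK
    have e : K * (η / (2 * K)) = η / 2 := by field_simp
    linarith
  -- the positive part
  have hp : Tendsto (fun T => PK (Kp R) T / nT T) l (𝓝 0) := by
    rw [Metric.tendsto_nhds]
    intro η hη
    obtain ⟨δ1, hδ0, hδ1, hI⟩ := I1 hR0 (ρ := η / (4 * C0)) (by positivity)
    filter_upwards [hl hcy, near0 δ1 hδ0 hδ1 (η / 4) (by positivity), hl (eventually_ge_atTop 10)]
      with T t1 t2 hT
    have hn := nT_pos hT
    have h3 := Kp_le hI T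
    have h0 := PK_nonneg (k := Kp R) (fun _ => le_max_left _ _) T
    rw [Real.dist_eq, sub_zero, abs_of_nonneg (by positivity)]
    have e := div_le_div_of_nonneg_right h3 hn.le
    rw [add_div, mul_div_assoc] at e
    have t3 := mul_le_mul_of_nonneg_left t1 (show 0 ≤ η / (4 * C0) by positivity)
    have e2 : η / (4 * C0) * C0 = η / 4 := by field_simp
    linarith
  have hJ : Tendsto (JK R κ) l (𝓝 (bK R κ)) ↔ Tendsto (fun T => PK (Km R) T / nT T) l (𝓝 0) := by
    have h1 := (JK_lim RH hR hκ hκ1).mono_left hl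
    constructor
    · intro h
      have h2 := hp.add ((h1.sub h).const_mul (1 / R))
      rw [sub_self, mul_zero, add_zero] at h2
      refine h2.congr fun T => ?_
      rw [PK_parts]
      field_simp
      ring
    · intro h
      have h2 := h1.add ((hp.sub h).const_mul R)
      rw [sub_zero, mul_zero, add_zero] at h2
      refine h2.congr fun T => ?_
      rw [PK_parts]
      ring
  rw [hJ, ← PT_iff RH hR0 hl]
  constructor
  · intro h
    rw [Metric.tendsto_nhds]
    intro η hη
    obtain ⟨u, hfar⟩ := far RH hR0 (η := η / 8) (by positivity)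
    obtain ⟨δ1, hδ0, hδ1, hI⟩ := I3 hR0 (ρ := η / (8 * C0)) (by positivity) u
    have hA : 0 < (R * u) ^ 2 + 1 := by positivity
    filter_upwards [hl hcy, hl hfar, near0 δ1 hδ0 hδ1 (η / 8) (by positivity),
      hl (eventually_ge_atTop 10),
      h.eventually (gt_mem_nhds (show (0:ℝ) < η / (8 * ((R * u) ^ 2 + 1)) by positivity))]
      with T t1 t2 t3 hT t4
    have hn := nT_pos hT
    have h0 := PT_nonneg hR0 T
    rw [Real.dist_eq, sub_zero, abs_of_nonneg (by positivity)]
    have h5 : PT R T ≤ PS (fun n n' => tl R T u (ord n) (ord n')) (NZ T) +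
        (PS (fun n n' => nr (1 / R - δ1) T (ord n) (ord n')) (NZ T) +
          ((R * u) ^ 2 * PK (Km R) T + η / (8 * C0) * PK cy T)) := by
      unfold PK
      rw [← PS_smul, ← PS_smul, ← PS_add, ← PS_add, ← PS_add]
      refine PS_mono fun n j _ _ _ => ?_
      unfold tl nr kw
      have hw := (ww_pos (ord n - ord (n + j))).le
      have hw1 := ww_le (ord n - ord (n + j))
      have k1 : 0 ≤ Km R ((ord n - ord (n + j)) * Real.log T / (2 * Real.pi)) := le_max_left _ _
      have k2 := (cy_pos ((ord n - ord (n + j)) * Real.log T / (2 * Real.pi))).le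
      have k3 : 0 ≤ (R * u) ^ 2 * (Km R ((ord n - ord (n + j)) * Real.log T / (2 * Real.pi)) *
        ww (ord n - ord (n + j))) := by positivity
      have k4 : 0 ≤ η / (8 * C0) * (cy ((ord n - ord (n + j)) * Real.log T / (2 * Real.pi)) *
        ww (ord n - ord (n + j))) := by positivity
      by_cases c1 : (u : ℝ) ≤ |(ord n - ord (n + j)) * Real.log T / (2 * Real.pi)|
      · rw [if_pos c1]
        have k5 : (0:ℝ) ≤ if |(ord n - ord (n + j)) * Real.log T / (2 * Real.pi)| < 1 / R - δ1 then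
            (1:ℝ) else 0 := by split_ifs <;> norm_num
        linarith
      · rw [if_neg c1, zero_add]
        push Not at c1
        have h6 := mul_le_mul_of_nonneg_right (hI _ c1) hw
        unfold gw
        rw [add_mul, add_mul] at h6
        have k6 : (if |(ord n - ord (n + j)) * Real.log T / (2 * Real.pi)| < 1 / R - δ1 then
            (1:ℝ) else 0) * ww (ord n - ord (n + j)) ≤
            if |(ord n - ord (n + j)) * Real.log T / (2 * Real.pi)| < 1 / R - δ1 then
            (1:ℝ) else 0 := mul_le_of_le_one_right (by split_ifs <;> norm_num) hw1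
        linarith
    have h6 := div_le_div_of_nonneg_right h5 hn.le
    rw [add_div, add_div, add_div, mul_div_assoc, mul_div_assoc] at h6
    have h7 : PS (fun n n' => tl R T u (ord n) (ord n')) (NZ T) / nT T ≤ η / 8 := by
      rw [div_le_iff₀ hn]; exact t2
    have h8 := mul_le_mul_of_nonneg_left t1 (show 0 ≤ η / (8 * C0) by positivity)
    have e2 : η / (8 * C0) * C0 = η / 8 := by field_simp
    have h9 : (R * u) ^ 2 * (PK (Km R) T / nT T) ≤ η / 8 := by
      have h10 : 0 ≤ PK (Km R) T / nT T :=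
        div_nonneg (PK_nonneg (k := Km R) (fun _ => le_max_left _ _) T) hn.le
      have h11 : (R * u) ^ 2 * (PK (Km R) T / nT T) ≤ ((R * u) ^ 2 + 1) * (PK (Km R) T / nT T) :=
        mul_le_mul_of_nonneg_right (by linarith) h10
      have h12 := mul_lt_mul_of_pos_left t4 hA
      have e3 : ((R * u) ^ 2 + 1) * (η / (8 * ((R * u) ^ 2 + 1))) = η / 8 := by field_simp
      linarith
    linarith
  · intro h
    rw [Metric.tendsto_nhds]
    intro η hη
    obtain ⟨C, hC, hI⟩ := I2 hR0 (ρ := η / (4 * C0)) (by positivity)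
    filter_upwards [hl hcy, hl (eventually_ge_atTop 10),
      h.eventually (gt_mem_nhds (show (0:ℝ) < η / (4 * C) by positivity))] with T t1 hT t2
    have hn := nT_pos hT
    have h0 := PK_nonneg (k := Km R) (fun _ => le_max_left _ _) T
    rw [Real.dist_eq, sub_zero, abs_of_nonneg (by positivity)]
    have h5 : PK (Km R) T ≤ C * PT R T + η / (4 * C0) * PK cy T := by
      rw [PT_PK]
      unfold PK
      rw [← PS_smul, ← PS_smul, ← PS_add]
      refine PS_mono fun n j _ _ _ => ?_
      unfold kw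
      have h6 := mul_le_mul_of_nonneg_right
        (hI ((ord n - ord (n + j)) * Real.log T / (2 * Real.pi))) (ww_pos (ord n - ord (n + j))).le
      linarith
    have h6 := div_le_div_of_nonneg_right h5 hn.le
    rw [add_div, mul_div_assoc, mul_div_assoc] at h6
    have h8 := mul_le_mul_of_nonneg_left t1 (show 0 ≤ η / (4 * C0) by positivity)
    have e2 : η / (4 * C0) * C0 = η / 4 := by field_simp
    have h9 := mul_lt_mul_of_pos_left t2 hC
    have e3 : C * (η / (4 * C)) = η / 4 := by field_simp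
    linarith

end Q172.HS
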